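import Mathlib
import Pool.Agent.Helper425.FA.Main

set_option autoImplicit false

open Set Topology

namespace Pool.Agent.Results.MP_fa84b3_gt.SquareLindelof

/-- Let `C_p(X)` be Lindelöf (`X` Tychonoff) and let `φ` be a condensation of `C_p(X)` onto a
`σ`-compact Tychonoff space `Y`. Then `X` is separable and all points of `Y` are `G_δ`; and `Y` has a
countable network whenever `C_p(X) × C_p(X)` is Lindelöf, and whenever `X` is strongly
zero-dimensional (completely separated sets are separated by clopen sets). -/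
theorem result (X : Type) [TopologicalSpace X] [T35Space X]
    (hL : LindelofSpace {f : X → ℝ // Continuous f})
    (Y : Type) [TopologicalSpace Y] [T35Space Y] (hY : SigmaCompactSpace Y)
    (φ : {f : X → ℝ // Continuous f} → Y) (hφ : Continuous φ) (hb : Function.Bijective φ) :
    (∃ A : Set X, A.Countable ∧ Dense A) ∧
    (∀ y : Y, IsGδ ({y} : Set Y)) ∧
    ((LindelofSpace ({f : X → ℝ // Continuous f} × {f : X → ℝ // Continuous f}) ∨
        ∀ f : X → ℝ, Continuous f →
          ∃ W : Set X, IsClopen W ∧ {x | f x ≤ 0} ⊆ W ∧ W ⊆ {x | f x < 1}) →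
      ∃ 𝒩 : Set (Set Y), 𝒩.Countable ∧
        ∀ y : Y, ∀ U : Set Y, IsOpen U → y ∈ U →
          ∃ N ∈ 𝒩, y ∈ N ∧ N ⊆ U) := by
  obtain ⟨A, hA, hd⟩ := Pool.Agent.Helper425.FA.separable_of_condense X Y φ hφ hb
  refine ⟨⟨A, hA, hd⟩, fun y =>
    Pool.Agent.Helper425.FA.gdelta_of_condense X Y φ hφ hb A hA hd y, ?_⟩
  rintro (h | h)
  · exact Pool.Agent.Helper425.FA.cosmic_of_sq' X Y φ hφ hb
  · haveI := Pool.Agent.Helper425.FA.lindelof_sq_of_zd X h
    exact Pool.Agent.Helper425.FA.cosmic_of_sq' X Y φ hφ hb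

end Pool.Agent.Results.MP_fa84b3_gt.SquareLindelof
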